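import Pool.Agent.J6H92.Fac.Piet

/-!
Weighted inequalities, halving, vector valued coefficients, and duality (abstract).
-/

set_option autoImplicit false

open Finset

namespace Pool.Agent.J6H92.Fac

variable {τ : Type*}

open Classical in
/-- From weights to halving: on at least half of the elements of `I` the weights are at most `2 / |I|`. -/
theorem half_of_weights (F I : Finset ℕ) (hI : I ⊆ F) (hne : I.Nonempty) (lam : ℕ → ℝ)
    (h0 : ∀ n, 0 ≤ lam n) (h1 : ∑ n ∈ F, lam n = 1) :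
    ∃ J ⊆ I, I.card ≤ 2 * J.card ∧ ∀ n ∈ J, lam n ≤ 2 / I.card := by
  have hIc : (0 : ℝ) < I.card := by exact_mod_cast card_pos.2 hne
  refine ⟨I.filter (fun n => lam n ≤ 2 / I.card), filter_subset _ _, ?_, fun n hn => (mem_filter.1 hn).2⟩
  have hsplit := card_filter_add_card_filter_not (s := I) (fun n => lam n ≤ 2 / (I.card : ℝ))
  have h2 : ((I.filter (fun n => ¬ lam n ≤ 2 / (I.card : ℝ))).card : ℝ) * (2 / I.card) ≤ 1 := by
    calc ((I.filter (fun n => ¬ lam n ≤ 2 / (I.card : ℝ))).card : ℝ) * (2 / I.card)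
        = ∑ n ∈ I.filter (fun n => ¬ lam n ≤ 2 / (I.card : ℝ)), (2 / (I.card : ℝ)) := by
          rw [sum_const, nsmul_eq_mul]
      _ ≤ ∑ n ∈ I.filter (fun n => ¬ lam n ≤ 2 / (I.card : ℝ)), lam n :=
          sum_le_sum fun n hn => (not_le.1 (mem_filter.1 hn).2).le
      _ ≤ ∑ n ∈ F, lam n := sum_le_sum_of_subset_of_nonneg ((filter_subset _ _).trans hI)
          fun n _ _ => h0 n
      _ = 1 := h1
  have h3 : 2 * ((I.filter (fun n => ¬ lam n ≤ 2 / (I.card : ℝ))).card : ℝ) ≤ I.card := by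
    obtain ⟨x, hx⟩ : ∃ x : ℝ, x = ((I.filter (fun n => ¬ lam n ≤ 2 / (I.card : ℝ))).card : ℝ) := ⟨_, rfl⟩
    rw [← hx] at h2 ⊢
    have h4 := mul_le_mul_of_nonneg_right h2 hIc.le
    rw [one_mul] at h4
    refine le_trans (le_of_eq ?_) h4
    field_simp
  have h5 : 2 * (I.filter (fun n => ¬ lam n ≤ 2 / (I.card : ℝ))).card ≤ I.card := by exact_mod_cast h3
  omega

/-- From halving to bounded coefficients. -/
theorem bounded_of_half (S : Finset τ) (F : Finset ℕ) (u : τ → ℕ → ℂ) (H : ℝ) (hH : 0 ≤ H)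
    (h : ∀ I ⊆ F, I.Nonempty → ∃ J ⊆ I, I.card ≤ 2 * J.card ∧ ∀ a : ℕ → ℂ, (∀ n, n ∉ J → a n = 0) →
      ∑ t ∈ S, ‖∑ n ∈ F, a n * u t n‖ ^ 2 ≤ H / I.card * ∑ n ∈ J, ‖a n‖ ^ 2) :
    ∀ (m : ℕ) (I : Finset ℕ), I ⊆ F → I.card < 2 ^ m → ∀ a : ℕ → ℂ, (∀ n, ‖a n‖ ≤ 1) →
      (∀ n, n ∉ I → a n = 0) → ∑ t ∈ S, ‖∑ n ∈ F, a n * u t n‖ ^ 2 ≤ (m : ℝ) ^ 2 * H := by
  classical
  intro m
  induction m with
  | zero =>
    intro I _ hI a _ h0
    have hI0 : I = ∅ := by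
      rw [pow_zero] at hI
      exact card_eq_zero.1 (by omega)
    have e : ∀ t ∈ S, ‖∑ n ∈ F, a n * u t n‖ ^ 2 = 0 := by
      intro t _
      rw [sum_eq_zero fun n _ => by rw [h0 n (by rw [hI0]; exact notMem_empty n), zero_mul]]
      simp
    rw [sum_congr rfl e]
    simp
  | succ m ih =>
    intro I hIF hI a ha h0
    rcases I.eq_empty_or_nonempty with hI0 | hne
    · have e : ∀ t ∈ S, ‖∑ n ∈ F, a n * u t n‖ ^ 2 = 0 := by
        intro t _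
        rw [sum_eq_zero fun n _ => by rw [h0 n (by rw [hI0]; exact notMem_empty n), zero_mul]]
        simp
      rw [sum_congr rfl e]
      simp only [sum_const_zero]
      positivity
    obtain ⟨J, hJI, hcard, hJ⟩ := h I hIF hne
    have hIc : (0 : ℝ) < I.card := by exact_mod_cast card_pos.2 hne
    set b : ℕ → ℂ := fun n => if n ∈ J then a n else 0 with hb
    set c : ℕ → ℂ := fun n => if n ∈ I \ J then a n else 0 with hc
    have hbc : ∀ n, a n = b n + c n := by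
      intro n
      simp only [hb, hc]
      by_cases h1 : n ∈ J
      · rw [if_pos h1, if_neg (fun h => (mem_sdiff.1 h).2 h1), add_zero]
      · by_cases h2 : n ∈ I
        · rw [if_neg h1, if_pos (mem_sdiff.2 ⟨h2, h1⟩), zero_add]
        · rw [if_neg h1, if_neg (fun h => h2 (mem_sdiff.1 h).1), h0 n h2, add_zero]
    have hX : ∑ t ∈ S, ‖∑ n ∈ F, b n * u t n‖ ^ 2 ≤ H := by
      refine (hJ b (fun n hn => by simp only [hb, if_neg hn])).trans ?_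
      have h2 : ∑ n ∈ J, ‖b n‖ ^ 2 ≤ J.card := by
        calc ∑ n ∈ J, ‖b n‖ ^ 2 ≤ ∑ n ∈ J, (1 : ℝ) := by
              refine sum_le_sum fun n hn => ?_
              simp only [hb, if_pos hn]
              exact pow_le_one₀ (norm_nonneg _) (ha n)
          _ = J.card := by rw [sum_const, nsmul_eq_mul, mul_one]
      have h3 : (J.card : ℝ) ≤ I.card := by exact_mod_cast card_le_card hJI
      calc H / I.card * ∑ n ∈ J, ‖b n‖ ^ 2 ≤ H / I.card * I.card :=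
            mul_le_mul_of_nonneg_left (h2.trans h3) (div_nonneg hH hIc.le)
        _ = H := div_mul_cancel₀ H hIc.ne'
    have hY : ∑ t ∈ S, ‖∑ n ∈ F, c n * u t n‖ ^ 2 ≤ (m : ℝ) ^ 2 * H := by
      apply ih (I \ J) (sdiff_subset.trans hIF)
      · rw [card_sdiff_of_subset hJI]
        rw [pow_succ] at hI
        omega
      · intro n
        simp only [hc]
        split_ifs
        · exact ha n
        · simp
      · intro n hn
        simp only [hc, if_neg hn]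
    have hpt : ∀ t ∈ S, ‖∑ n ∈ F, a n * u t n‖ ^ 2 ≤
        ((m : ℝ) + 1) * ‖∑ n ∈ F, b n * u t n‖ ^ 2 +
          (if m = 0 then 1 else 1 + 1 / (m : ℝ)) * ‖∑ n ∈ F, c n * u t n‖ ^ 2 +
          (if m = 0 then ‖∑ n ∈ F, c n * u t n‖ * (2 * ‖∑ n ∈ F, b n * u t n‖) else 0) := by
      intro t _
      have e : ∑ n ∈ F, a n * u t n = ∑ n ∈ F, b n * u t n + ∑ n ∈ F, c n * u t n := by
        rw [← sum_add_distrib]
        exact sum_congr rfl fun n _ => by rw [hbc n]; ring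
      rw [e]
      obtain ⟨x, hx⟩ : ∃ x, x = ‖∑ n ∈ F, b n * u t n‖ := ⟨_, rfl⟩
      obtain ⟨y, hy⟩ : ∃ y, y = ‖∑ n ∈ F, c n * u t n‖ := ⟨_, rfl⟩
      have hxy : ‖∑ n ∈ F, b n * u t n + ∑ n ∈ F, c n * u t n‖ ≤ x + y := by
        rw [hx, hy]; exact norm_add_le _ _
      rw [← hx, ← hy]
      have hx0 : 0 ≤ x := by rw [hx]; exact norm_nonneg _
      have hy0 : 0 ≤ y := by rw [hy]; exact norm_nonneg _
      have h1 : ‖∑ n ∈ F, b n * u t n + ∑ n ∈ F, c n * u t n‖ ^ 2 ≤ (x + y) ^ 2 :=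
        pow_le_pow_left₀ (norm_nonneg _) hxy 2
      refine h1.trans ?_
      split_ifs with hm
      · rw [hm]
        push_cast
        nlinarith
      · have hm0 : (0 : ℝ) < m := by exact_mod_cast Nat.pos_of_ne_zero hm
        have h2 : 2 * (x * y) ≤ m * x ^ 2 + 1 / m * y ^ 2 := by
          have h3 : 0 ≤ (m * x - y) ^ 2 / m := by positivity
          have e3 : (m * x - y) ^ 2 / m = m * x ^ 2 - 2 * (x * y) + 1 / m * y ^ 2 := by
            field_simp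
            ring
          linarith
        nlinarith
    have hsum := sum_le_sum hpt
    rw [sum_add_distrib, sum_add_distrib, ← mul_sum, ← mul_sum] at hsum
    refine hsum.trans ?_
    by_cases hm : m = 0
    · -- then the second part vanishes
      rw [if_pos hm]
      have hY0 : ∑ t ∈ S, ‖∑ n ∈ F, c n * u t n‖ ^ 2 ≤ 0 := by
        refine hY.trans (le_of_eq ?_)
        rw [hm]
        simp
      have hz : ∀ t ∈ S, ‖∑ n ∈ F, c n * u t n‖ = 0 := by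
        intro t ht
        have h1 : ‖∑ n ∈ F, c n * u t n‖ ^ 2 ≤ ∑ t ∈ S, ‖∑ n ∈ F, c n * u t n‖ ^ 2 :=
          single_le_sum (f := fun t => ‖∑ n ∈ F, c n * u t n‖ ^ 2) (fun t _ => by positivity) ht
        have h2 : ‖∑ n ∈ F, c n * u t n‖ ^ 2 ≤ 0 := h1.trans hY0
        nlinarith [norm_nonneg (∑ n ∈ F, c n * u t n)]
      have e : ∑ t ∈ S, (if m = 0 then ‖∑ n ∈ F, c n * u t n‖ * (2 * ‖∑ n ∈ F, b n * u t n‖) else 0) = 0 := by
        refine sum_eq_zero fun t ht => ?_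
        rw [if_pos hm, hz t ht, zero_mul]
      rw [e, hm]
      push_cast
      linarith
    · rw [if_neg hm]
      have hm0 : (0 : ℝ) < m := by exact_mod_cast Nat.pos_of_ne_zero hm
      have e : ∑ t ∈ S, (if m = 0 then ‖∑ n ∈ F, c n * u t n‖ * (2 * ‖∑ n ∈ F, b n * u t n‖) else 0) = 0 := by
        refine sum_eq_zero fun t ht => ?_
        rw [if_neg hm]
      rw [e, add_zero]
      have h1 : ((m : ℝ) + 1) * ∑ t ∈ S, ‖∑ n ∈ F, b n * u t n‖ ^ 2 ≤ (m + 1) * H :=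
        mul_le_mul_of_nonneg_left hX (by positivity)
      have h2 : (1 + 1 / (m : ℝ)) * ∑ t ∈ S, ‖∑ n ∈ F, c n * u t n‖ ^ 2 ≤ (1 + 1 / m) * ((m : ℝ) ^ 2 * H) :=
        mul_le_mul_of_nonneg_left hY (by positivity)
      have e2 : (1 + 1 / (m : ℝ)) * ((m : ℝ) ^ 2 * H) = (m ^ 2 + m) * H := by
        field_simp
      push_cast
      nlinarith

/-- the dual form -/
theorem dual_of_bounded (S : Finset τ) (F : Finset ℕ) (u : τ → ℕ → ℂ) (M : ℝ)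
    (h : ∀ a : ℕ → ℂ, (∀ n, ‖a n‖ ≤ 1) → ∑ t ∈ S, ‖∑ n ∈ F, a n * u t n‖ ^ 2 ≤ M) (b : τ → ℂ) :
    (∑ n ∈ F, ‖∑ t ∈ S, b t * u t n‖) ^ 2 ≤ M * ∑ t ∈ S, ‖b t‖ ^ 2 := by
  set a : ℕ → ℂ := fun n => (starRingEnd ℂ) (∑ t ∈ S, b t * u t n) / ‖∑ t ∈ S, b t * u t n‖ with ha
  have ha1 : ∀ n, ‖a n‖ ≤ 1 := by
    intro n
    simp only [ha, norm_div, RCLike.norm_conj, Complex.norm_real, norm_norm]
    exact div_self_le_one _
  have hmul : ∀ n, a n * ∑ t ∈ S, b t * u t n = (‖∑ t ∈ S, b t * u t n‖ : ℂ) := by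
    intro n
    simp only [ha]
    by_cases h0 : ∑ t ∈ S, b t * u t n = 0
    · simp [h0]
    · have hn : ((‖∑ t ∈ S, b t * u t n‖ : ℝ) : ℂ) ≠ 0 := by
        exact_mod_cast norm_ne_zero_iff.2 h0
      rw [div_mul_eq_mul_div, div_eq_iff hn, mul_comm, Complex.mul_conj, Complex.normSq_eq_norm_sq]
      push_cast
      ring
  have e : ((∑ n ∈ F, ‖∑ t ∈ S, b t * u t n‖ : ℝ) : ℂ) = ∑ t ∈ S, b t * ∑ n ∈ F, a n * u t n := by
    push_cast
    rw [← sum_congr rfl fun n _ => hmul n]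
    simp only [mul_sum]
    rw [sum_comm]
    exact sum_congr rfl fun t _ => sum_congr rfl fun n _ => by ring
  have h1 : ∑ n ∈ F, ‖∑ t ∈ S, b t * u t n‖ ≤ ∑ t ∈ S, ‖b t‖ * ‖∑ n ∈ F, a n * u t n‖ := by
    have h0 : 0 ≤ ∑ n ∈ F, ‖∑ t ∈ S, b t * u t n‖ := sum_nonneg fun n _ => norm_nonneg _
    calc ∑ n ∈ F, ‖∑ t ∈ S, b t * u t n‖ = ‖((∑ n ∈ F, ‖∑ t ∈ S, b t * u t n‖ : ℝ) : ℂ)‖ := by
          rw [Complex.norm_real, Real.norm_of_nonneg h0]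
      _ = ‖∑ t ∈ S, b t * ∑ n ∈ F, a n * u t n‖ := by rw [e]
      _ ≤ ∑ t ∈ S, ‖b t * ∑ n ∈ F, a n * u t n‖ := norm_sum_le _ _
      _ = _ := sum_congr rfl fun t _ => norm_mul _ _
  have h0 : 0 ≤ ∑ n ∈ F, ‖∑ t ∈ S, b t * u t n‖ := sum_nonneg fun n _ => norm_nonneg _
  calc (∑ n ∈ F, ‖∑ t ∈ S, b t * u t n‖) ^ 2 ≤ (∑ t ∈ S, ‖b t‖ * ‖∑ n ∈ F, a n * u t n‖) ^ 2 :=
        pow_le_pow_left₀ h0 h1 2
    _ ≤ (∑ t ∈ S, ‖b t‖ ^ 2) * ∑ t ∈ S, ‖∑ n ∈ F, a n * u t n‖ ^ 2 := sum_mul_sq_le_sq_mul_sq _ _ _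
    _ ≤ (∑ t ∈ S, ‖b t‖ ^ 2) * M := mul_le_mul_of_nonneg_left (h a ha1)
        (sum_nonneg fun t _ => by positivity)
    _ = _ := mul_comm _ _

theorem bounded_of_dual (S : Finset τ) (F : Finset ℕ) (u : τ → ℕ → ℂ) (M : ℝ)
    (h : ∀ b : τ → ℂ, (∑ n ∈ F, ‖∑ t ∈ S, b t * u t n‖) ^ 2 ≤ M * ∑ t ∈ S, ‖b t‖ ^ 2) (a : ℕ → ℂ)
    (ha : ∀ n, ‖a n‖ ≤ 1) (hM : 0 ≤ M) : ∑ t ∈ S, ‖∑ n ∈ F, a n * u t n‖ ^ 2 ≤ M := by
  set b : τ → ℂ := fun t => (starRingEnd ℂ) (∑ n ∈ F, a n * u t n) with hb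
  have hbn : ∑ t ∈ S, ‖b t‖ ^ 2 = ∑ t ∈ S, ‖∑ n ∈ F, a n * u t n‖ ^ 2 := by
    refine sum_congr rfl fun t _ => ?_
    simp only [hb, RCLike.norm_conj]
  have e : ((∑ t ∈ S, ‖∑ n ∈ F, a n * u t n‖ ^ 2 : ℝ) : ℂ) = ∑ n ∈ F, a n * ∑ t ∈ S, b t * u t n := by
    have h1 : ∀ t, ((‖∑ n ∈ F, a n * u t n‖ ^ 2 : ℝ) : ℂ) = b t * ∑ n ∈ F, a n * u t n := by
      intro t
      simp only [hb]
      rw [mul_comm, Complex.mul_conj, Complex.normSq_eq_norm_sq]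
    rw [Complex.ofReal_sum, sum_congr rfl fun t _ => h1 t]
    simp only [mul_sum]
    rw [sum_comm]
    exact sum_congr rfl fun t _ => sum_congr rfl fun n _ => by ring
  have h0 : 0 ≤ ∑ t ∈ S, ‖∑ n ∈ F, a n * u t n‖ ^ 2 := sum_nonneg fun t _ => by positivity
  have h1 : ∑ t ∈ S, ‖∑ n ∈ F, a n * u t n‖ ^ 2 ≤ ∑ n ∈ F, ‖∑ t ∈ S, b t * u t n‖ := by
    calc ∑ t ∈ S, ‖∑ n ∈ F, a n * u t n‖ ^ 2
        = ‖((∑ t ∈ S, ‖∑ n ∈ F, a n * u t n‖ ^ 2 : ℝ) : ℂ)‖ := by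
          rw [Complex.norm_real, Real.norm_of_nonneg h0]
      _ = ‖∑ n ∈ F, a n * ∑ t ∈ S, b t * u t n‖ := by rw [e]
      _ ≤ ∑ n ∈ F, ‖a n * ∑ t ∈ S, b t * u t n‖ := norm_sum_le _ _
      _ ≤ ∑ n ∈ F, ‖∑ t ∈ S, b t * u t n‖ := by
          refine sum_le_sum fun n _ => ?_
          rw [norm_mul]
          exact mul_le_of_le_one_left (norm_nonneg _) (ha n)
  have h2 := h b
  rw [hbn] at h2
  have h3 : (∑ t ∈ S, ‖∑ n ∈ F, a n * u t n‖ ^ 2) ^ 2 ≤ M * ∑ t ∈ S, ‖∑ n ∈ F, a n * u t n‖ ^ 2 :=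
    (pow_le_pow_left₀ h0 h1 2).trans h2
  rcases h0.eq_or_lt with h4 | h4
  · rw [← h4]; exact hM
  · nlinarith

end Pool.Agent.J6H92.Fac
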