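import Pool.Agent.J6H92.Fac.Short

/-!
The weights and the deleted sets must depend on the set of points; the `ℓ^p` form fails for `p < 4`.
-/

set_option autoImplicit false

open Finset

namespace Pool.Agent.J6H92.Fac

/-- the blocks -/
def blk (N L i : ℕ) : Finset ℕ := Icc ((N + 1) / 2 + i * (L + 1)) ((N + 1) / 2 + i * (L + 1) + L)

/-- the number of the blocks -/
def nb (N L : ℕ) : ℕ := (N + 1 - (N + 1) / 2) / (L + 1)

lemma blk_card (N L i : ℕ) : (blk N L i).card = L + 1 := by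
  unfold blk
  rw [Nat.card_Icc]
  omega

lemma blk_sub (N L i : ℕ) (hi : i < nb N L) (hN : 1 ≤ N) : blk N L i ⊆ Icc 1 N := by
  have h1 : (i + 1) * (L + 1) ≤ N + 1 - (N + 1) / 2 := by
    refine le_trans (Nat.mul_le_mul_right _ hi) ?_
    exact Nat.div_mul_le_self _ _
  intro n hn
  unfold blk at hn
  rw [mem_Icc] at hn ⊢
  rw [Nat.add_mul, one_mul] at h1
  omega

lemma blk_disj (N L : ℕ) {i j : ℕ} (hij : i ≠ j) : Disjoint (blk N L i) (blk N L j) := by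
  rw [disjoint_left]
  intro n h1 h2
  unfold blk at h1 h2
  rw [mem_Icc] at h1 h2
  rcases Nat.lt_or_gt_of_ne hij with h | h
  · have h3 : (i + 1) * (L + 1) ≤ j * (L + 1) := Nat.mul_le_mul_right _ h
    rw [Nat.add_mul, one_mul] at h3
    omega
  · have h3 : (j + 1) * (L + 1) ≤ i * (L + 1) := Nat.mul_le_mul_right _ h
    rw [Nat.add_mul, one_mul] at h3
    omega

lemma nb_lower (N L : ℕ) (hL : 8 * (L + 1) ≤ N) : 3 * N ≤ 8 * (nb N L * (L + 1)) := by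
  unfold nb
  have h1 := Nat.div_add_mod (N + 1 - (N + 1) / 2) (L + 1)
  have h2 := Nat.mod_lt (N + 1 - (N + 1) / 2) (show 0 < L + 1 by omega)
  rw [mul_comm] at h1
  omega

section main

variable (N : ℕ) (c : ℝ) (hc : 64 ≤ c) (hcN : c ^ 3 = N)

include hc hcN

lemma N_large : 1 ≤ N ∧ 8 * (⌊c⌋₊ + 1) ≤ N := by
  have h1 : (⌊c⌋₊ : ℝ) ≤ c := Nat.floor_le (by linarith)
  have h2 : (8 * ((⌊c⌋₊ : ℝ) + 1)) ≤ N := by
    rw [← hcN]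
    nlinarith [sq_nonneg c, mul_nonneg (show (0 : ℝ) ≤ c by linarith) (sq_nonneg c)]
  have h3 : 8 * (⌊c⌋₊ + 1) ≤ N := by exact_mod_cast h2
  exact ⟨by omega, h3⟩

/-- the example, for a subset of a block -/
lemma example_blk (i : ℕ) (hi : i < nb N ⌊c⌋₊) (R : Finset ℕ) (hR : R ⊆ blk N ⌊c⌋₊ i) :
    ∃ S : Finset ℝ, (∀ t ∈ S, 0 ≤ t ∧ t ≤ (N : ℝ) ^ 2) ∧ (∀ t ∈ S, ∀ u ∈ S, t ≠ u → 1 ≤ |t - u|) ∧
      S.card ≤ N ∧ (N : ℝ) * R.card ^ 2 / 2048 ≤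
        ∑ t ∈ S, ‖∑ n ∈ Icc 1 N, (if n ∈ R then (1 : ℂ) else 0) * ex t n‖ ^ 2 := by
  obtain ⟨hN1, hL⟩ := N_large N c hc hcN
  have hsub := blk_sub N ⌊c⌋₊ i hi hN1
  obtain ⟨S, h1, h2, h3, h4, h5⟩ := short N c hc hcN ((N + 1) / 2 + i * (⌊c⌋₊ + 1)) (by omega) (by
    have h6 : (N + 1) / 2 + i * (⌊c⌋₊ + 1) ∈ blk N ⌊c⌋₊ i := by
      unfold blk
      rw [mem_Icc]
      omega
    exact (mem_Icc.1 (hsub h6)).2)
  refine ⟨S, h1, h2, h4, ?_⟩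
  have h6 : ∀ t ∈ S, ((R.card : ℝ) / 2) ^ 2 ≤
      ‖∑ n ∈ Icc 1 N, (if n ∈ R then (1 : ℂ) else 0) * ex t n‖ ^ 2 := by
    intro t ht
    have h7 := h5 (Icc 1 N) (fun n => if n ∈ R then (1 : ℝ) else 0) (fun n => by split_ifs <;> norm_num) (by
      intro n _ hn0
      have hnR : n ∈ R := by
        by_contra h
        exact hn0 (if_neg h)
      have h8 := hR hnR
      unfold blk at h8
      rw [mem_Icc] at h8
      refine ⟨h8.1, ?_⟩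
      have h9 : (n : ℝ) ≤ ((N + 1) / 2 + i * (⌊c⌋₊ + 1) + ⌊c⌋₊ : ℕ) := by exact_mod_cast h8.2
      have h10 : (⌊c⌋₊ : ℝ) ≤ c := Nat.floor_le (by linarith)
      push_cast at h9 ⊢
      linarith) t ht
    have h8 : ∑ n ∈ Icc 1 N, (if n ∈ R then (1 : ℝ) else 0) = R.card := by
      rw [sum_ite_mem, inter_eq_right.2 (hR.trans hsub)]
      simp
    rw [h8] at h7
    have h9 : ∑ n ∈ Icc 1 N, (((if n ∈ R then (1 : ℝ) else 0 : ℝ)) : ℂ) * ex t n =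
        ∑ n ∈ Icc 1 N, (if n ∈ R then (1 : ℂ) else 0) * ex t n := by
      refine sum_congr rfl fun n _ => ?_
      split_ifs <;> simp
    rw [h9] at h7
    apply pow_le_pow_left₀ (by positivity)
    linarith
  have h7 : ∑ t ∈ S, ((R.card : ℝ) / 2) ^ 2 ≤ _ := sum_le_sum h6
  refine le_trans ?_ h7
  rw [sum_const, nsmul_eq_mul]
  have h8 : (0 : ℝ) ≤ ((R.card : ℝ) / 2) ^ 2 := by positivity
  have h9 := mul_le_mul_of_nonneg_right h3 h8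
  refine le_trans (le_of_eq ?_) h9
  ring

open Classical in
/-- no universal weights -/
theorem no_weights (lam : ℕ → ℝ) (h0 : ∀ n, 0 ≤ lam n) (h1 : ∑ n ∈ Icc 1 N, lam n = 1) :
    ∃ (S : Finset ℝ) (a : ℕ → ℂ), (∀ t ∈ S, 0 ≤ t ∧ t ≤ (N : ℝ) ^ 2) ∧
      (∀ t ∈ S, ∀ u ∈ S, t ≠ u → 1 ≤ |t - u|) ∧ S.card ≤ N ∧ (∀ n, ‖a n‖ ≤ 1) ∧
      1 / 20000 * c * ((N : ℝ) + S.card) * N * ∑ n ∈ Icc 1 N, lam n * ‖a n‖ ^ 2 <
        ∑ t ∈ S, ‖∑ n ∈ Icc 1 N, a n * ex t n‖ ^ 2 := by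
  obtain ⟨hN1, hL⟩ := N_large N c hc hcN
  have hN0 : (0 : ℝ) < N := by exact_mod_cast hN1
  have hnb := nb_lower N ⌊c⌋₊ hL
  have hnb' : 3 * (N : ℝ) ≤ 8 * (nb N ⌊c⌋₊ * ((⌊c⌋₊ : ℝ) + 1)) := by exact_mod_cast hnb
  have hm0 : 0 < nb N ⌊c⌋₊ := by
    by_contra h
    rw [Nat.not_lt, Nat.le_zero] at h
    rw [h] at hnb
    omega
  have hm0' : (0 : ℝ) < nb N ⌊c⌋₊ := by exact_mod_cast hm0
  have hL1 : c < (⌊c⌋₊ : ℝ) + 1 := Nat.lt_floor_add_one c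
  obtain ⟨i, hi, hli⟩ : ∃ i ∈ range (nb N ⌊c⌋₊), ∑ n ∈ blk N ⌊c⌋₊ i, lam n ≤ 1 / nb N ⌊c⌋₊ := by
    by_contra hcon
    push Not at hcon
    have h2 : ∑ i ∈ range (nb N ⌊c⌋₊), (1 : ℝ) / nb N ⌊c⌋₊ <
        ∑ i ∈ range (nb N ⌊c⌋₊), ∑ n ∈ blk N ⌊c⌋₊ i, lam n :=
      sum_lt_sum_of_nonempty ⟨0, mem_range.2 hm0⟩ hcon
    rw [sum_const, card_range, nsmul_eq_mul, mul_one_div_cancel hm0'.ne', ← sum_biUnion] at h2
    · have h3 : ∑ n ∈ (range (nb N ⌊c⌋₊)).biUnion (fun i => blk N ⌊c⌋₊ i), lam n ≤ ∑ n ∈ Icc 1 N, lam n := by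
        apply sum_le_sum_of_subset_of_nonneg
        · intro n hn
          obtain ⟨j, hj, hnj⟩ := mem_biUnion.1 hn
          exact blk_sub N _ j (mem_range.1 hj) hN1 hnj
        · exact fun n _ _ => h0 n
      linarith
    · intro i _ j _ hij
      exact blk_disj N _ hij
  have hi' := mem_range.1 hi
  obtain ⟨S, hS1, hS2, hS3, hS4⟩ := example_blk N c hc hcN i hi' (blk N ⌊c⌋₊ i) (Subset.refl _)
  refine ⟨S, fun n => if n ∈ blk N ⌊c⌋₊ i then 1 else 0, hS1, hS2, hS3, fun n => by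
    show ‖(if n ∈ blk N ⌊c⌋₊ i then (1 : ℂ) else 0)‖ ≤ 1
    split_ifs <;> simp, ?_⟩
  refine lt_of_lt_of_le ?_ hS4
  rw [blk_card]
  have h3 : ∑ n ∈ Icc 1 N, lam n * ‖(if n ∈ blk N ⌊c⌋₊ i then (1 : ℂ) else 0)‖ ^ 2 =
      ∑ n ∈ blk N ⌊c⌋₊ i, lam n := by
    have h4 : ∀ n, lam n * ‖(if n ∈ blk N ⌊c⌋₊ i then (1 : ℂ) else 0)‖ ^ 2 =
        if n ∈ blk N ⌊c⌋₊ i then lam n else 0 := by
      intro n
      split_ifs <;> simp
    rw [sum_congr rfl fun n _ => h4 n, sum_ite_mem, inter_eq_right.2 (blk_sub N _ i hi' hN1)]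
  rw [h3]
  have hSc : (S.card : ℝ) ≤ N := by exact_mod_cast hS3
  obtain ⟨ℓ, hℓ⟩ : ∃ ℓ : ℝ, ℓ = (⌊c⌋₊ : ℝ) + 1 := ⟨_, rfl⟩
  push_cast
  rw [← hℓ] at hnb' hL1 ⊢
  have hℓ0 : 0 < ℓ := by linarith
  have h5 : (1 : ℝ) / nb N ⌊c⌋₊ ≤ 8 * ℓ / (3 * N) := by
    rw [div_le_div_iff₀ hm0' (by positivity)]
    linarith
  have h6 : ∑ n ∈ blk N ⌊c⌋₊ i, lam n ≤ 8 * ℓ / (3 * N) := hli.trans h5
  calc 1 / 20000 * c * ((N : ℝ) + S.card) * N * ∑ n ∈ blk N ⌊c⌋₊ i, lam n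
      ≤ 1 / 20000 * c * ((N : ℝ) + N) * N * (8 * ℓ / (3 * N)) := by
        apply mul_le_mul _ h6 (sum_nonneg fun n _ => h0 n) (by positivity)
        apply mul_le_mul_of_nonneg_right _ hN0.le
        apply mul_le_mul_of_nonneg_left _ (by positivity)
        linarith
    _ = 16 / 60000 * (N * ℓ * c) := by
        field_simp
        ring
    _ < 1 / 2048 * (N * ℓ * ℓ) := by
        have h7 : N * ℓ * c < N * ℓ * ℓ := mul_lt_mul_of_pos_left hL1 (by positivity)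
        have h8 : 0 < N * ℓ * ℓ := by positivity
        nlinarith
    _ = _ := by ring

open Classical in
/-- no universal deletion -/
theorem no_deletion (E : Finset ℕ) (hE : E ⊆ Icc 1 N) (hEc : 8 * E.card ≤ N) :
    ∃ (S : Finset ℝ) (a : ℕ → ℂ), (∀ t ∈ S, 0 ≤ t ∧ t ≤ (N : ℝ) ^ 2) ∧
      (∀ t ∈ S, ∀ u ∈ S, t ≠ u → 1 ≤ |t - u|) ∧ S.card ≤ N ∧ (∀ n, ‖a n‖ ≤ 1) ∧ (∀ n ∈ E, a n = 0) ∧
      1 / 20000 * c * ((N : ℝ) + S.card) * ∑ n ∈ Icc 1 N, ‖a n‖ ^ 2 <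
        ∑ t ∈ S, ‖∑ n ∈ Icc 1 N, a n * ex t n‖ ^ 2 := by
  obtain ⟨hN1, hL⟩ := N_large N c hc hcN
  have hN0 : (0 : ℝ) < N := by exact_mod_cast hN1
  have hnb := nb_lower N ⌊c⌋₊ hL
  have hL1 : c < (⌊c⌋₊ : ℝ) + 1 := Nat.lt_floor_add_one c
  obtain ⟨i, hi, hli⟩ : ∃ i ∈ range (nb N ⌊c⌋₊), 2 * (blk N ⌊c⌋₊ i ∩ E).card ≤ ⌊c⌋₊ + 1 := by
    by_contra hcon
    push Not at hcon
    have h2 : ∑ i ∈ range (nb N ⌊c⌋₊), (⌊c⌋₊ + 1) ≤ ∑ i ∈ range (nb N ⌊c⌋₊), 2 * (blk N ⌊c⌋₊ i ∩ E).card :=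
      sum_le_sum fun i hi => (hcon i hi).le
    rw [sum_const, card_range, smul_eq_mul, ← mul_sum, ← card_biUnion] at h2
    · have h3 : ((range (nb N ⌊c⌋₊)).biUnion (fun i => blk N ⌊c⌋₊ i ∩ E)).card ≤ E.card := by
        apply card_le_card
        intro n hn
        obtain ⟨j, hj, hnj⟩ := mem_biUnion.1 hn
        exact (mem_inter.1 hnj).2
      omega
    · intro i _ j _ hij
      exact (blk_disj N _ hij).mono inter_subset_left inter_subset_left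
  have hi' := mem_range.1 hi
  obtain ⟨R, hR⟩ : ∃ R : Finset ℕ, R = blk N ⌊c⌋₊ i \ E := ⟨_, rfl⟩
  have hRsub : R ⊆ blk N ⌊c⌋₊ i := by rw [hR]; exact sdiff_subset
  have hRc : ⌊c⌋₊ + 1 ≤ 2 * R.card := by
    have h3 := card_sdiff_add_card_inter (blk N ⌊c⌋₊ i) E
    rw [blk_card, ← hR] at h3
    omega
  obtain ⟨S, hS1, hS2, hS3, hS4⟩ := example_blk N c hc hcN i hi' R hRsub
  refine ⟨S, fun n => if n ∈ R then 1 else 0, hS1, hS2, hS3, fun n => by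
    show ‖(if n ∈ R then (1 : ℂ) else 0)‖ ≤ 1
    split_ifs <;> simp, ?_, ?_⟩
  · intro n hn
    show (if n ∈ R then (1 : ℂ) else 0) = 0
    rw [if_neg]
    rw [hR]
    exact fun h => (mem_sdiff.1 h).2 hn
  refine lt_of_lt_of_le ?_ hS4
  have h3 : ∑ n ∈ Icc 1 N, ‖(if n ∈ R then (1 : ℂ) else 0)‖ ^ 2 = R.card := by
    have h4 : ∀ n, ‖(if n ∈ R then (1 : ℂ) else 0)‖ ^ 2 = if n ∈ R then (1 : ℝ) else 0 := by
      intro n
      split_ifs <;> simp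
    rw [sum_congr rfl fun n _ => h4 n, sum_ite_mem, inter_eq_right.2 (hRsub.trans (blk_sub N _ i hi' hN1))]
    simp
  rw [h3]
  have hSc : (S.card : ℝ) ≤ N := by exact_mod_cast hS3
  have hRr : c < 2 * R.card := by
    have : ((⌊c⌋₊ : ℝ) + 1) ≤ 2 * R.card := by exact_mod_cast hRc
    linarith
  obtain ⟨r, hr⟩ : ∃ r : ℝ, r = R.card := ⟨_, rfl⟩
  rw [← hr] at hRr ⊢
  have hr0 : 0 < r := by linarith
  calc 1 / 20000 * c * ((N : ℝ) + S.card) * r ≤ 1 / 20000 * c * ((N : ℝ) + N) * r := by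
        apply mul_le_mul_of_nonneg_right _ hr0.le
        apply mul_le_mul_of_nonneg_left _ (by positivity)
        linarith
    _ = 1 / 10000 * (N * r * c) := by ring
    _ < N * r ^ 2 / 2048 := by
        have h7 : N * r * c < N * r * (2 * r) := mul_lt_mul_of_pos_left hRr (by positivity)
        have h8 : 0 < N * r * r := by positivity
        nlinarith

/-- the `ℓ^p` form fails for `p < 4` -/
theorem no_lp (p : ℝ) (hp : 1 ≤ p) :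
    ∃ (S : Finset ℝ) (a : ℕ → ℂ), (∀ t ∈ S, 0 ≤ t ∧ t ≤ (N : ℝ) ^ 2) ∧
      (∀ t ∈ S, ∀ u ∈ S, t ≠ u → 1 ≤ |t - u|) ∧ S.card ≤ N ∧ (∀ n, ‖a n‖ ≤ 1) ∧
      1 / 20000 * (N : ℝ) ^ ((4 - p) / (3 * p)) * ((N : ℝ) + S.card) * (N : ℝ) ^ (1 - 2 / p) *
        (∑ n ∈ Icc 1 N, ‖a n‖ ^ p) ^ (2 / p) < ∑ t ∈ S, ‖∑ n ∈ Icc 1 N, a n * ex t n‖ ^ 2 := by
  obtain ⟨hN1, hL⟩ := N_large N c hc hcN
  have hN0 : (0 : ℝ) < N := by exact_mod_cast hN1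
  have hp0 : 0 < p := by linarith
  have hc0 : 0 < c := by linarith
  have hnb := nb_lower N ⌊c⌋₊ hL
  have hm0 : 0 < nb N ⌊c⌋₊ := by
    by_contra h
    rw [Nat.not_lt, Nat.le_zero] at h
    rw [h] at hnb
    omega
  have hL1 : c < (⌊c⌋₊ : ℝ) + 1 := Nat.lt_floor_add_one c
  have hL2 : (⌊c⌋₊ : ℝ) + 1 ≤ 2 * c := by
    have := Nat.floor_le hc0.le
    linarith
  obtain ⟨S, hS1, hS2, hS3, hS4⟩ := example_blk N c hc hcN 0 hm0 (blk N ⌊c⌋₊ 0) (Subset.refl _)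
  refine ⟨S, fun n => if n ∈ blk N ⌊c⌋₊ 0 then 1 else 0, hS1, hS2, hS3, fun n => by
    show ‖(if n ∈ blk N ⌊c⌋₊ 0 then (1 : ℂ) else 0)‖ ≤ 1
    split_ifs <;> simp, ?_⟩
  refine lt_of_lt_of_le ?_ hS4
  rw [blk_card]
  have h3 : ∑ n ∈ Icc 1 N, ‖(if n ∈ blk N ⌊c⌋₊ 0 then (1 : ℂ) else 0)‖ ^ p = (⌊c⌋₊ : ℝ) + 1 := by
    have h4 : ∀ n, ‖(if n ∈ blk N ⌊c⌋₊ 0 then (1 : ℂ) else 0)‖ ^ p = if n ∈ blk N ⌊c⌋₊ 0 then (1 : ℝ) else 0 := by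
      intro n
      split_ifs
      · simp
      · rw [norm_zero, Real.zero_rpow hp0.ne']
    rw [sum_congr rfl fun n _ => h4 n, sum_ite_mem, inter_eq_right.2 (blk_sub N _ 0 hm0 hN1)]
    simp [blk_card]
  rw [h3]
  have hSc : (S.card : ℝ) ≤ N := by exact_mod_cast hS3
  obtain ⟨ℓ, hℓ⟩ : ∃ ℓ : ℝ, ℓ = (⌊c⌋₊ : ℝ) + 1 := ⟨_, rfl⟩
  push_cast
  rw [← hℓ] at hL1 hL2 ⊢
  have hcr : c = (N : ℝ) ^ (1 / 3 : ℝ) := by
    rw [← hcN, ← Real.rpow_natCast, ← Real.rpow_mul hc0.le]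
    norm_num
  have h2p : 0 ≤ 2 / p := by positivity
  have h5 : ℓ ^ (2 / p) ≤ 4 * c ^ (2 / p) := by
    calc ℓ ^ (2 / p) ≤ (2 * c) ^ (2 / p) := Real.rpow_le_rpow (by linarith) hL2 h2p
      _ = 2 ^ (2 / p) * c ^ (2 / p) := Real.mul_rpow (by norm_num) hc0.le
      _ ≤ 4 * c ^ (2 / p) := by
          apply mul_le_mul_of_nonneg_right _ (by positivity)
          have h6 : (2 : ℝ) ^ (2 / p) ≤ 2 ^ (2 : ℝ) := by
            apply Real.rpow_le_rpow_of_exponent_le (by norm_num)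
            rw [div_le_iff₀ hp0]
            linarith
          refine h6.trans (le_of_eq ?_)
          norm_num
  have h6 : c ^ (2 / p) = (N : ℝ) ^ (2 / (3 * p)) := by
    rw [hcr, ← Real.rpow_mul hN0.le]
    congr 1
    field_simp
  have h7 : (N : ℝ) ^ ((4 - p) / (3 * p)) * (N : ℝ) ^ (1 - 2 / p) * (N : ℝ) ^ (2 / (3 * p)) = c ^ 2 := by
    rw [← Real.rpow_add hN0, ← Real.rpow_add hN0, hcr, ← Real.rpow_natCast, ← Real.rpow_mul hN0.le]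
    congr 1
    push_cast
    field_simp
    ring
  calc 1 / 20000 * (N : ℝ) ^ ((4 - p) / (3 * p)) * ((N : ℝ) + S.card) * (N : ℝ) ^ (1 - 2 / p) * ℓ ^ (2 / p)
      ≤ 1 / 20000 * (N : ℝ) ^ ((4 - p) / (3 * p)) * ((N : ℝ) + N) * (N : ℝ) ^ (1 - 2 / p) * (4 * c ^ (2 / p)) := by
        apply mul_le_mul _ h5 (Real.rpow_nonneg (by linarith) _) (by positivity)
        apply mul_le_mul_of_nonneg_right _ (by positivity)
        apply mul_le_mul_of_nonneg_left _ (by positivity)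
        linarith
    _ = 8 / 20000 * N * ((N : ℝ) ^ ((4 - p) / (3 * p)) * (N : ℝ) ^ (1 - 2 / p) * (N : ℝ) ^ (2 / (3 * p))) := by
        rw [h6]
        ring
    _ = 8 / 20000 * N * c ^ 2 := by rw [h7]
    _ < N * ℓ ^ 2 / 2048 := by
        have h8 : c ^ 2 < ℓ ^ 2 := pow_lt_pow_left₀ hL1 hc0.le (by norm_num)
        have h9 : N * c ^ 2 < N * ℓ ^ 2 := mul_lt_mul_of_pos_left h8 hN0
        have h10 : 0 < N * c ^ 2 := by positivity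
        nlinarith

end main

end Pool.Agent.J6H92.Fac
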