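import Pool.Agent.H758R2.Groth

/-!
Factorization of an operator from `ℓ_∞` to a Hilbert space (the little Grothendieck inequality and
Pietsch's theorem, from the starting file `Pool.Agent.H758R2.Groth`), halving, and duality.
-/

set_option autoImplicit false

open Finset

namespace Pool.Agent.J6H92.Fac

section piet

variable {τ : Type*}

lemma B_gram {ι : Type} [Fintype ι] (S : Finset τ) (u : τ → ι → ℂ) (x y : ι → ℂ) :
    Pool.Agent.H758R2.Groth.B (fun i j => ∑ t ∈ S, u t i * (starRingEnd ℂ) (u t j)) x y =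
      ∑ t ∈ S, (∑ i, x i * u t i) * (starRingEnd ℂ) (∑ j, (starRingEnd ℂ) (y j) * u t j) := by
  unfold Pool.Agent.H758R2.Groth.B
  simp only [map_sum, map_mul, Complex.conj_conj, sum_mul_sum]
  have h : ∀ i j : ι, (∑ t ∈ S, u t i * (starRingEnd ℂ) (u t j)) * x i * y j =
      ∑ t ∈ S, x i * u t i * (y j * (starRingEnd ℂ) (u t j)) := by
    intro i j
    rw [sum_mul, sum_mul]
    exact sum_congr rfl fun t _ => by ring
  simp only [h]
  calc ∑ i, ∑ j, ∑ t ∈ S, x i * u t i * (y j * (starRingEnd ℂ) (u t j))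
      = ∑ i, ∑ t ∈ S, ∑ j, x i * u t i * (y j * (starRingEnd ℂ) (u t j)) :=
        sum_congr rfl fun i _ => sum_comm
    _ = _ := sum_comm

/-- **Weights.** If `∑_t |∑_i a_i u_(t,i)|² ≤ M` for all `|a_i| ≤ 1`, there is a probability vector `λ`
with `∑_t |∑_i a_i u_(t,i)|² ≤ 96 M ∑_i λ_i |a_i|²` for all complex `a`. -/
theorem weights_fin {ι : Type} [Fintype ι] [Nonempty ι] (S : Finset τ) (u : τ → ι → ℂ) (M : ℝ)
    (h : ∀ a : ι → ℂ, (∀ i, ‖a i‖ ≤ 1) → ∑ t ∈ S, ‖∑ i, a i * u t i‖ ^ 2 ≤ M) :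
    ∃ lam : ι → ℝ, (∀ i, 0 ≤ lam i) ∧ ∑ i, lam i = 1 ∧
      ∀ a : ι → ℂ, ∑ t ∈ S, ‖∑ i, a i * u t i‖ ^ 2 ≤ 96 * M * ∑ i, lam i * ‖a i‖ ^ 2 := by
  set A : ι → ι → ℂ := fun i j => ∑ t ∈ S, u t i * (starRingEnd ℂ) (u t j) with hA
  have hB : Pool.Agent.H758R2.Groth.BBound A M := by
    intro x y hx hy
    have e : ∑ i, ∑ j, A i j * x i * y j = Pool.Agent.H758R2.Groth.B A x y := rfl
    rw [e, hA, B_gram S u x y]
    have h1 := h x hx
    have h2 := h (fun j => (starRingEnd ℂ) (y j)) (fun i => by simpa using hy i)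
    calc ‖∑ t ∈ S, (∑ i, x i * u t i) * (starRingEnd ℂ) (∑ j, (starRingEnd ℂ) (y j) * u t j)‖
        ≤ ∑ t ∈ S, ‖∑ i, x i * u t i‖ * ‖∑ j, (starRingEnd ℂ) (y j) * u t j‖ := by
          refine (norm_sum_le _ _).trans (le_of_eq ?_)
          refine sum_congr rfl fun t _ => ?_
          rw [norm_mul, RCLike.norm_conj]
      _ ≤ ∑ t ∈ S, (‖∑ i, x i * u t i‖ ^ 2 + ‖∑ j, (starRingEnd ℂ) (y j) * u t j‖ ^ 2) / 2 := by
          refine sum_le_sum fun t _ => ?_
          nlinarith [sq_nonneg (‖∑ i, x i * u t i‖ - ‖∑ j, (starRingEnd ℂ) (y j) * u t j‖)]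
      _ = (∑ t ∈ S, ‖∑ i, x i * u t i‖ ^ 2 +
            ∑ t ∈ S, ‖∑ j, (starRingEnd ℂ) (y j) * u t j‖ ^ 2) / 2 := by
          rw [← sum_add_distrib, sum_div]
      _ ≤ M := by linarith
  obtain ⟨lam, mu, hl, hm, hl1, hm1, hle⟩ :=
    Pool.Agent.H758R2.Groth.pietsch A (Pool.Agent.H758R2.Groth.groth A hB)
  refine ⟨fun i => (lam i + mu i) / 2, fun i => by have := hl i; have := hm i; linarith, ?_, ?_⟩
  · rw [← sum_div, sum_add_distrib, hl1, hm1]
    norm_num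
  · intro a
    have h1 := hle a (fun j => (starRingEnd ℂ) (a j))
    rw [hA, B_gram S u a _] at h1
    simp only [Complex.conj_conj] at h1
    have e1 : (∑ t ∈ S, (∑ i, a i * u t i) * (starRingEnd ℂ) (∑ j, a j * u t j)).re =
        ∑ t ∈ S, ‖∑ i, a i * u t i‖ ^ 2 := by
      rw [Complex.re_sum]
      refine sum_congr rfl fun t _ => ?_
      rw [Complex.mul_conj, Complex.ofReal_re, Complex.normSq_eq_norm_sq]
    rw [e1] at h1
    refine h1.trans (le_of_eq ?_)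
    simp only [RCLike.norm_conj]
    rw [← sum_add_distrib, mul_sum, mul_sum]
    refine sum_congr rfl fun i _ => ?_
    ring

/-- the same for sums over a finite set of natural numbers -/
theorem weights (S : Finset τ) (F : Finset ℕ) (hF : F.Nonempty) (u : τ → ℕ → ℂ) (M : ℝ)
    (h : ∀ a : ℕ → ℂ, (∀ n, ‖a n‖ ≤ 1) → ∑ t ∈ S, ‖∑ n ∈ F, a n * u t n‖ ^ 2 ≤ M) :
    ∃ lam : ℕ → ℝ, (∀ n, 0 ≤ lam n) ∧ ∑ n ∈ F, lam n = 1 ∧
      ∀ a : ℕ → ℂ, ∑ t ∈ S, ‖∑ n ∈ F, a n * u t n‖ ^ 2 ≤ 96 * M * ∑ n ∈ F, lam n * ‖a n‖ ^ 2 := by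
  classical
  have : Nonempty F := hF.to_subtype
  obtain ⟨lam, h0, h1, h2⟩ := weights_fin (ι := F) S (fun t n => u t n) M (by
    intro a ha
    have h3 := h (fun n => if hn : n ∈ F then a ⟨n, hn⟩ else 0) (by
      intro n
      by_cases hn : n ∈ F
      · simp only [dif_pos hn]; exact ha _
      · simp only [dif_neg hn, norm_zero]; exact zero_le_one)
    refine le_trans (le_of_eq ?_) h3
    refine sum_congr rfl fun t _ => ?_
    congr 2
    rw [← sum_coe_sort F]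
    refine sum_congr rfl fun n _ => ?_
    rw [dif_pos n.2])
  refine ⟨fun n => if hn : n ∈ F then lam ⟨n, hn⟩ else 0, ?_, ?_, ?_⟩
  · intro n
    by_cases hn : n ∈ F
    · simp only [dif_pos hn]; exact h0 _
    · simp only [dif_neg hn]; exact le_rfl
  · rw [← h1, ← sum_coe_sort F]
    refine sum_congr rfl fun n _ => ?_
    rw [dif_pos n.2]
  · intro a
    have h3 := h2 (fun n => a n)
    refine le_trans (le_of_eq ?_) (h3.trans (le_of_eq ?_))
    · refine sum_congr rfl fun t _ => ?_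
      congr 2
      rw [← sum_coe_sort F]
    · congr 1
      rw [← sum_coe_sort F (fun n => (if hn : n ∈ F then lam ⟨n, hn⟩ else 0) * ‖a n‖ ^ 2)]
      refine sum_congr rfl fun n _ => ?_
      rw [dif_pos n.2]

end piet

end Pool.Agent.J6H92.Fac
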