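import Mathlib

/-!
The weak-type dual inequality implies the dual inequality up to the square of a logarithm.
-/

set_option autoImplicit false

open Finset

namespace Pool.Agent.J6H92.Fac

/-- dyadic decomposition -/
lemma dyadic (β : ℝ) (hβ : 0 < β) (x : ℝ) (J : ℕ) (hx : x ≤ 2 ^ J * β) :
    x ≤ β + ∑ j ∈ range J, if 2 ^ j * β ≤ x then 2 * (2 ^ j * β) else 0 := by
  induction J with
  | zero => simpa using hx
  | succ J ih =>
    rw [sum_range_succ]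
    by_cases h : x ≤ 2 ^ J * β
    · have h1 : (0 : ℝ) ≤ if 2 ^ J * β ≤ x then 2 * (2 ^ J * β) else 0 := by
        split_ifs
        · positivity
        · exact le_refl _
      linarith [ih h]
    · rw [not_le] at h
      rw [if_pos h.le]
      have h1 : (0 : ℝ) ≤ ∑ j ∈ range J, if 2 ^ j * β ≤ x then 2 * (2 ^ j * β) else 0 := by
        refine sum_nonneg fun j _ => ?_
        split_ifs
        · positivity
        · exact le_refl _
      rw [pow_succ] at hx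
      linarith

variable {τ : Type*}

/-- from the weak-type inequality to the strong one -/
theorem dual_of_weak (S : Finset τ) (F : Finset ℕ) (hF : F.Nonempty) (u : τ → ℕ → ℂ)
    (hu : ∀ t n, ‖u t n‖ ≤ 1) (W : ℝ) (hW : 0 < W) (J : ℕ)
    (hJ : (F.card : ℝ) ^ 2 * S.card ≤ 4 ^ J * W)
    (h : ∀ (b : τ → ℂ) (V : ℝ), 0 < V →
      (V * ((F.filter fun n => V ≤ ‖∑ t ∈ S, b t * u t n‖).card : ℝ)) ^ 2 ≤ W * ∑ t ∈ S, ‖b t‖ ^ 2)
    (b : τ → ℂ) :
    (∑ n ∈ F, ‖∑ t ∈ S, b t * u t n‖) ^ 2 ≤ (2 * J + 1) ^ 2 * W * ∑ t ∈ S, ‖b t‖ ^ 2 := by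
  obtain ⟨B, hB⟩ : ∃ B : ℝ, B = ∑ t ∈ S, ‖b t‖ ^ 2 := ⟨_, rfl⟩
  have hB0 : 0 ≤ B := by rw [hB]; positivity
  have hb := h b
  rw [← hB] at hb ⊢
  have hx : ∀ n, ‖∑ t ∈ S, b t * u t n‖ ^ 2 ≤ S.card * B := by
    intro n
    have h1 : ‖∑ t ∈ S, b t * u t n‖ ≤ ∑ t ∈ S, ‖b t‖ := by
      refine (norm_sum_le _ _).trans (sum_le_sum fun t _ => ?_)
      rw [norm_mul]
      exact mul_le_of_le_one_right (norm_nonneg _) (hu t n)
    calc ‖∑ t ∈ S, b t * u t n‖ ^ 2 ≤ (∑ t ∈ S, ‖b t‖) ^ 2 := pow_le_pow_left₀ (norm_nonneg _) h1 2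
      _ ≤ S.card * ∑ t ∈ S, ‖b t‖ ^ 2 := sq_sum_le_card_mul_sum_sq
      _ = S.card * B := by rw [hB]
  rcases hB0.eq_or_lt with h0 | h0
  · have h2 : ∀ n ∈ F, ‖∑ t ∈ S, b t * u t n‖ = 0 := by
      intro n _
      have h3 := hx n
      rw [← h0, mul_zero] at h3
      exact pow_eq_zero_iff (two_ne_zero) |>.1 (le_antisymm h3 (sq_nonneg _))
    rw [sum_congr rfl h2, ← h0]
    simp
  have hFc : (0 : ℝ) < F.card := by exact_mod_cast card_pos.2 hF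
  obtain ⟨r, hr⟩ : ∃ r : ℝ, r = Real.sqrt (W * B) := ⟨_, rfl⟩
  have hr0 : 0 < r := by rw [hr]; exact Real.sqrt_pos.2 (mul_pos hW h0)
  have hr2 : r ^ 2 = W * B := by rw [hr]; exact Real.sq_sqrt (mul_pos hW h0).le
  obtain ⟨β, hβ⟩ : ∃ β : ℝ, β = r / F.card := ⟨_, rfl⟩
  have hβ0 : 0 < β := by rw [hβ]; positivity
  have hxle : ∀ n, ‖∑ t ∈ S, b t * u t n‖ ≤ 2 ^ J * β := by
    intro n
    rw [← pow_le_pow_iff_left₀ (norm_nonneg _) (by positivity) two_ne_zero]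
    refine (hx n).trans ?_
    have e : (2 ^ J * β) ^ 2 = 4 ^ J * W * B / (F.card : ℝ) ^ 2 := by
      rw [hβ, mul_pow, div_pow, hr2, ← pow_mul, mul_comm J 2, pow_mul]
      norm_num
      ring
    rw [e, le_div_iff₀ (by positivity)]
    have := mul_le_mul_of_nonneg_right hJ hB0
    linarith
  have hlev : ∀ j ∈ range J, ∑ n ∈ F, (if 2 ^ j * β ≤ ‖∑ t ∈ S, b t * u t n‖ then 2 * (2 ^ j * β) else 0)
      ≤ 2 * r := by
    intro j _
    rw [← sum_filter, sum_const, nsmul_eq_mul]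
    have hV : 0 < 2 ^ j * β := by positivity
    have h3 := hb (2 ^ j * β) hV
    rw [← hr2, pow_le_pow_iff_left₀ (by positivity) hr0.le two_ne_zero] at h3
    linarith
  have htot : ∑ n ∈ F, ‖∑ t ∈ S, b t * u t n‖ ≤ (2 * J + 1) * r := by
    calc ∑ n ∈ F, ‖∑ t ∈ S, b t * u t n‖
        ≤ ∑ n ∈ F, (β + ∑ j ∈ range J,
            if 2 ^ j * β ≤ ‖∑ t ∈ S, b t * u t n‖ then 2 * (2 ^ j * β) else 0) :=
          sum_le_sum fun n _ => dyadic β hβ0 _ J (hxle n)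
      _ = F.card * β + ∑ j ∈ range J, ∑ n ∈ F,
            (if 2 ^ j * β ≤ ‖∑ t ∈ S, b t * u t n‖ then 2 * (2 ^ j * β) else 0) := by
          rw [sum_add_distrib, sum_const, nsmul_eq_mul, sum_comm]
      _ ≤ r + ∑ j ∈ range J, 2 * r := by
          apply add_le_add _ (sum_le_sum hlev)
          rw [hβ, mul_div_cancel₀ _ hFc.ne']
      _ = (2 * J + 1) * r := by
          rw [sum_const, card_range, nsmul_eq_mul]
          ring
  calc (∑ n ∈ F, ‖∑ t ∈ S, b t * u t n‖) ^ 2 ≤ ((2 * J + 1) * r) ^ 2 :=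
        pow_le_pow_left₀ (sum_nonneg fun n _ => norm_nonneg _) htot 2
    _ = (2 * J + 1) ^ 2 * W * B := by rw [mul_pow, hr2]; ring

/-- powers of the logarithm -/
lemma log_absorb (δ : ℝ) (hδ : 0 < δ) :
    ∃ L : ℝ, 0 < L ∧ ∀ N : ℕ, 1 ≤ N → ((Nat.log 2 N : ℝ) + 1) ^ 2 ≤ L * (N : ℝ) ^ δ := by
  have hl2 : 0 < Real.log 2 := Real.log_pos (by norm_num)
  refine ⟨(1 / (δ / 2 * Real.log 2) + 1) ^ 2, by positivity, fun N hN => ?_⟩
  have hN0 : (1 : ℝ) ≤ N := by exact_mod_cast hN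
  have h1 : (Nat.log 2 N : ℝ) ≤ Real.log N / Real.log 2 := by
    have := Real.natLog_le_logb N 2
    rwa [Real.logb, Nat.cast_ofNat] at this
  have h2 : Real.log N ≤ (N : ℝ) ^ (δ / 2) / (δ / 2) := Real.log_le_rpow_div (by linarith) (by positivity)
  have h3 : (1 : ℝ) ≤ (N : ℝ) ^ (δ / 2) := Real.one_le_rpow hN0 (by positivity)
  have h4 : (Nat.log 2 N : ℝ) + 1 ≤ (1 / (δ / 2 * Real.log 2) + 1) * (N : ℝ) ^ (δ / 2) := by
    have h5 : Real.log N / Real.log 2 ≤ (N : ℝ) ^ (δ / 2) / (δ / 2) / Real.log 2 :=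
      div_le_div_of_nonneg_right h2 hl2.le
    have h6 : (N : ℝ) ^ (δ / 2) / (δ / 2) / Real.log 2 = 1 / (δ / 2 * Real.log 2) * (N : ℝ) ^ (δ / 2) := by
      field_simp
    rw [add_mul, one_mul, ← h6]
    linarith
  calc ((Nat.log 2 N : ℝ) + 1) ^ 2 ≤ ((1 / (δ / 2 * Real.log 2) + 1) * (N : ℝ) ^ (δ / 2)) ^ 2 :=
        pow_le_pow_left₀ (by positivity) h4 2
    _ = (1 / (δ / 2 * Real.log 2) + 1) ^ 2 * (N : ℝ) ^ δ := by
        rw [mul_pow, ← Real.rpow_natCast ((N : ℝ) ^ (δ / 2)), ← Real.rpow_mul (by linarith)]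
        congr 2
        push_cast
        ring

end Pool.Agent.J6H92.Fac
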