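import Pool.Agent.J6H92.Fac.Half
import Pool.Agent.J6H92.Fac.Lim
import Pool.Agent.J6H92.Fac.Weak

/-!
The equivalent forms of Montgomery's conjecture, for one set of points and for all scales.
-/

set_option autoImplicit false

open Finset

namespace Pool.Agent.J6H92.Fac

/-- the value at `t` of the Dirichlet polynomial with the coefficients `a` -/
noncomputable def DP (N : ℕ) (a : ℕ → ℂ) (t : ℝ) : ℂ := ∑ n ∈ Icc 1 N, a n * ex t n

/-- the dual sum -/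
noncomputable def dualSum (S : Finset ℝ) (b : ℝ → ℂ) (n : ℕ) : ℂ := ∑ t ∈ S, b t * ex t n

/-- bounded coefficients -/
def Bounded (N : ℕ) (S : Finset ℝ) (M : ℝ) : Prop :=
  ∀ a : ℕ → ℂ, (∀ n, ‖a n‖ ≤ 1) → ∑ t ∈ S, ‖DP N a t‖ ^ 2 ≤ M

/-- vector valued coefficients in the unit ball of a Hilbert space -/
def Vector (N : ℕ) (S : Finset ℝ) (M : ℝ) : Prop :=
  ∀ (m : ℕ) (a : Fin m → ℕ → ℂ), (∀ n, ∑ j, ‖a j n‖ ^ 2 ≤ 1) → ∑ t ∈ S, ∑ j, ‖DP N (a j) t‖ ^ 2 ≤ M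

/-- the dual inequality -/
def Dual (N : ℕ) (S : Finset ℝ) (M : ℝ) : Prop :=
  ∀ b : ℝ → ℂ, (∑ n ∈ Icc 1 N, ‖dualSum S b n‖) ^ 2 ≤ M * ∑ t ∈ S, ‖b t‖ ^ 2

/-- the weak-type dual inequality -/
def WeakDual (N : ℕ) (S : Finset ℝ) (M : ℝ) : Prop :=
  ∀ (b : ℝ → ℂ) (V : ℝ), 0 < V →
    (V * (((Icc 1 N).filter fun n => V ≤ ‖dualSum S b n‖).card : ℝ)) ^ 2 ≤ M * ∑ t ∈ S, ‖b t‖ ^ 2

/-- the weighted `ℓ²` inequality: the weights depend on the set of points only -/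
def Weighted (N : ℕ) (S : Finset ℝ) (M : ℝ) : Prop :=
  ∃ lam : ℕ → ℝ, (∀ n, 0 ≤ lam n) ∧ ∑ n ∈ Icc 1 N, lam n = 1 ∧
    ∀ (v : ℝ) (a : ℕ → ℂ), ∑ t ∈ S, ‖DP N a (t + v)‖ ^ 2 ≤ M * ∑ n ∈ Icc 1 N, lam n * ‖a n‖ ^ 2

/-- the `ℓ²` inequality after the deletion of half of a set of integers -/
def Halving (N : ℕ) (S : Finset ℝ) (M : ℝ) : Prop :=
  ∀ I ⊆ Icc 1 N, I.Nonempty → ∃ J ⊆ I, I.card ≤ 2 * J.card ∧
    ∀ (v : ℝ) (a : ℕ → ℂ), (∀ n, n ∉ J → a n = 0) →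
      ∑ t ∈ S, ‖DP N a (t + v)‖ ^ 2 ≤ M / I.card * ∑ n ∈ J, ‖a n‖ ^ 2

/-- the inequality with `M = C N^ε (N + |S|) N`, at all scales -/
def Scales (P : ℕ → Finset ℝ → ℝ → Prop) : Prop :=
  ∀ ε : ℝ, 0 < ε → ∃ C : ℝ, 0 < C ∧ ∀ N : ℕ, 1 ≤ N → ∀ T : ℝ, T ≤ (N : ℝ) ^ 2 → ∀ S : Finset ℝ,
    (∀ t ∈ S, 0 ≤ t ∧ t ≤ T) → (∀ t ∈ S, ∀ u ∈ S, t ≠ u → 1 ≤ |t - u|) →
      P N S (C * (N : ℝ) ^ ε * ((N : ℝ) + (S.card : ℝ)) * (N : ℝ))

section one

variable {N : ℕ} {S : Finset ℝ} {M : ℝ}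

lemma DP_add (a : ℕ → ℂ) (t v : ℝ) : DP N a (t + v) = DP N (fun n => a n * ex v n) t := by
  unfold DP
  refine sum_congr rfl fun n _ => ?_
  rw [ex_add]
  ring

lemma weighted_of_bounded (hN : 1 ≤ N) (h : Bounded N S M) : Weighted N S (96 * M) := by
  obtain ⟨lam, h0, h1, h2⟩ := weights S (Icc 1 N) ⟨1, by simpa using hN⟩ ex M h
  refine ⟨lam, h0, h1, fun v a => ?_⟩
  have h3 := h2 (fun n => a n * ex v n)
  have e : ∑ n ∈ Icc 1 N, lam n * ‖a n * ex v n‖ ^ 2 = ∑ n ∈ Icc 1 N, lam n * ‖a n‖ ^ 2 := by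
    refine sum_congr rfl fun n _ => ?_
    rw [norm_mul, ex_norm, mul_one]
  rw [e] at h3
  refine le_trans (le_of_eq ?_) h3
  refine sum_congr rfl fun t _ => ?_
  rw [DP_add]
  rfl

lemma vector_of_weighted (hM : 0 ≤ M) (h : Weighted N S M) : Vector N S M := by
  obtain ⟨lam, h0, h1, h2⟩ := h
  intro m a ha
  rw [sum_comm]
  have h3 : ∀ j : Fin m, ∑ t ∈ S, ‖DP N (a j) t‖ ^ 2 ≤ M * ∑ n ∈ Icc 1 N, lam n * ‖a j n‖ ^ 2 := by
    intro j
    have := h2 0 (a j)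
    simpa using this
  calc ∑ j, ∑ t ∈ S, ‖DP N (a j) t‖ ^ 2 ≤ ∑ j, M * ∑ n ∈ Icc 1 N, lam n * ‖a j n‖ ^ 2 :=
        sum_le_sum fun j _ => h3 j
    _ = M * ∑ n ∈ Icc 1 N, lam n * ∑ j, ‖a j n‖ ^ 2 := by
        rw [← mul_sum, sum_comm]
        simp only [mul_sum]
    _ ≤ M * ∑ n ∈ Icc 1 N, lam n * 1 := by
        apply mul_le_mul_of_nonneg_left _ hM
        exact sum_le_sum fun n _ => mul_le_mul_of_nonneg_left (ha n) (h0 n)
    _ = M := by simp only [mul_one]; rw [h1, mul_one]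

lemma bounded_of_vector (h : Vector N S M) : Bounded N S M := by
  intro a ha
  have h1 := h 1 (fun _ => a) (fun n => by
    simp only [univ_unique, sum_singleton]
    exact pow_le_one₀ (norm_nonneg _) (ha n))
  simpa using h1

lemma dual_of_bdd (h : Bounded N S M) : Dual N S M := fun b => dual_of_bounded S (Icc 1 N) ex M h b

lemma bdd_of_dual (hM : 0 ≤ M) (h : Dual N S M) : Bounded N S M :=
  fun a ha => bounded_of_dual S (Icc 1 N) ex M h a ha hM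

lemma weak_of_dual (h : Dual N S M) : WeakDual N S M := by
  intro b V hV
  refine le_trans ?_ (h b)
  apply pow_le_pow_left₀ (by positivity)
  calc V * (((Icc 1 N).filter fun n => V ≤ ‖dualSum S b n‖).card : ℝ)
      = ∑ n ∈ (Icc 1 N).filter (fun n => V ≤ ‖dualSum S b n‖), V := by
        rw [sum_const, nsmul_eq_mul]
        ring
    _ ≤ ∑ n ∈ (Icc 1 N).filter (fun n => V ≤ ‖dualSum S b n‖), ‖dualSum S b n‖ :=
        sum_le_sum fun n hn => (mem_filter.1 hn).2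
    _ ≤ ∑ n ∈ Icc 1 N, ‖dualSum S b n‖ :=
        sum_le_sum_of_subset_of_nonneg (filter_subset _ _) fun n _ _ => norm_nonneg _

lemma dual_of_weakDual (hN : 1 ≤ N) (hM : ((N : ℝ) + S.card) * N ≤ M) (h : WeakDual N S M) :
    Dual N S (9 * ((Nat.log 2 N : ℝ) + 1) ^ 2 * M) := by
  have hN0 : (1 : ℝ) ≤ N := by exact_mod_cast hN
  have hS0 : (0 : ℝ) ≤ S.card := Nat.cast_nonneg _
  have hM0 : 0 < M := lt_of_lt_of_le (by positivity) hM
  have hpow : (N : ℝ) ≤ 2 ^ (Nat.log 2 N + 1) := by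
    exact_mod_cast (Nat.lt_pow_succ_log_self one_lt_two N).le
  intro b
  have h1 := dual_of_weak S (Icc 1 N) ⟨1, by simpa using hN⟩ ex (fun t n => (ex_norm t n).le) M hM0
    (Nat.log 2 N + 1) (by
      rw [Nat.card_Icc, Nat.add_sub_cancel]
      have h4 : (4 : ℝ) ^ (Nat.log 2 N + 1) = (2 ^ (Nat.log 2 N + 1)) ^ 2 := by
        rw [← pow_mul, mul_comm (Nat.log 2 N + 1) 2, pow_mul]
        norm_num
      rw [h4]
      have h5 : (N : ℝ) ^ 2 ≤ (2 ^ (Nat.log 2 N + 1)) ^ 2 := pow_le_pow_left₀ (by linarith) hpow 2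
      have h6 : (S.card : ℝ) ≤ M := by nlinarith
      exact mul_le_mul h5 h6 hS0 (by positivity)) h b
  refine h1.trans ?_
  have hB : (0 : ℝ) ≤ ∑ t ∈ S, ‖b t‖ ^ 2 := by positivity
  apply mul_le_mul_of_nonneg_right _ hB
  apply mul_le_mul_of_nonneg_right _ hM0.le
  have hl : (0 : ℝ) ≤ Nat.log 2 N := Nat.cast_nonneg _
  push_cast
  nlinarith

lemma halving_of_weighted (hM : 0 ≤ M) (h : Weighted N S M) : Halving N S (2 * M) := by
  obtain ⟨lam, h0, h1, h2⟩ := h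
  intro I hI hne
  obtain ⟨J, hJI, hJc, hJl⟩ := half_of_weights (Icc 1 N) I hI hne lam h0 h1
  have hIc : (0 : ℝ) < I.card := by exact_mod_cast card_pos.2 hne
  refine ⟨J, hJI, hJc, fun v a ha => ?_⟩
  refine (h2 v a).trans ?_
  have e : ∑ n ∈ Icc 1 N, lam n * ‖a n‖ ^ 2 = ∑ n ∈ J, lam n * ‖a n‖ ^ 2 := by
    symm
    apply sum_subset (hJI.trans hI)
    intro n _ hn
    rw [ha n hn]
    simp
  rw [e]
  calc M * ∑ n ∈ J, lam n * ‖a n‖ ^ 2 ≤ M * ∑ n ∈ J, 2 / I.card * ‖a n‖ ^ 2 := by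
        apply mul_le_mul_of_nonneg_left _ hM
        exact sum_le_sum fun n hn => mul_le_mul_of_nonneg_right (hJl n hn) (by positivity)
    _ = 2 * M / I.card * ∑ n ∈ J, ‖a n‖ ^ 2 := by
        rw [← mul_sum]
        ring

lemma bounded_of_halving (hM : 0 ≤ M) (h : Halving N S M) :
    Bounded N S (((Nat.log 2 N : ℝ) + 1) ^ 2 * M) := by
  classical
  intro a ha
  have h1 := bounded_of_half S (Icc 1 N) ex M hM (by
    intro I hI hne
    obtain ⟨J, hJI, hJc, hJ⟩ := h I hI hne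
    refine ⟨J, hJI, hJc, fun a ha => ?_⟩
    have := hJ 0 a ha
    simpa [DP] using this) (Nat.log 2 N + 1) (Icc 1 N) (Subset.refl _) (by
      rw [Nat.card_Icc, Nat.add_sub_cancel]
      exact Nat.lt_pow_succ_log_self one_lt_two N) (fun n => if n ∈ Icc 1 N then a n else 0) (by
      intro n
      show ‖(if n ∈ Icc 1 N then a n else 0)‖ ≤ 1
      split_ifs
      · exact ha n
      · simp) (by
      intro n hn
      exact if_neg hn)
  push_cast at h1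
  refine le_trans (le_of_eq ?_) h1
  refine sum_congr rfl fun t _ => ?_
  unfold DP
  congr 2
  refine sum_congr rfl fun n hn => ?_
  rw [if_pos hn]

lemma Bounded.mono {M' : ℝ} (hM : M ≤ M') (h : Bounded N S M) : Bounded N S M' :=
  fun a ha => (h a ha).trans hM

lemma Vector.mono {M' : ℝ} (hM : M ≤ M') (h : Vector N S M) : Vector N S M' :=
  fun m a ha => (h m a ha).trans hM

lemma Dual.mono {M' : ℝ} (hM : M ≤ M') (h : Dual N S M) : Dual N S M' :=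
  fun b => (h b).trans (mul_le_mul_of_nonneg_right hM (by positivity))

lemma WeakDual.mono {M' : ℝ} (hM : M ≤ M') (h : WeakDual N S M) : WeakDual N S M' :=
  fun b V hV => (h b V hV).trans (mul_le_mul_of_nonneg_right hM (by positivity))

lemma Weighted.mono {M' : ℝ} (hM : M ≤ M') (h : Weighted N S M) : Weighted N S M' := by
  obtain ⟨lam, h0, h1, h2⟩ := h
  exact ⟨lam, h0, h1, fun v a => (h2 v a).trans (mul_le_mul_of_nonneg_right hM
    (sum_nonneg fun n _ => mul_nonneg (h0 n) (by positivity)))⟩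

lemma Halving.mono {M' : ℝ} (hM : M ≤ M') (h : Halving N S M) : Halving N S M' := by
  intro I hI hne
  obtain ⟨J, h0, h1, h2⟩ := h I hI hne
  exact ⟨J, h0, h1, fun v a ha => (h2 v a ha).trans (mul_le_mul_of_nonneg_right
    (div_le_div_of_nonneg_right hM (Nat.cast_nonneg _)) (by positivity))⟩

end one

/-- transfer of the inequality at all scales -/
theorem scales_of (P Q : ℕ → Finset ℝ → ℝ → Prop)
    (hP : ∀ N S (M M' : ℝ), M ≤ M' → P N S M → P N S M')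
    (hQ : ∀ N S (M M' : ℝ), M ≤ M' → Q N S M → Q N S M') (K : ℝ) (hK : 0 < K)
    (h : ∀ (N : ℕ) (S : Finset ℝ) (M : ℝ), 1 ≤ N → ((N : ℝ) + S.card) * N ≤ M → P N S M →
      Q N S (K * ((Nat.log 2 N : ℝ) + 1) ^ 2 * M)) : Scales P → Scales Q := by
  intro hs ε hε
  obtain ⟨C, hC, h1⟩ := hs (ε / 2) (by linarith)
  obtain ⟨L, hL, h2⟩ := log_absorb (ε / 2) (by linarith)
  have hC' : 0 < max C 1 := lt_max_of_lt_left hC
  refine ⟨K * L * max C 1, by positivity, fun N hN T hT S hS1 hS2 => ?_⟩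
  have hN0 : (1 : ℝ) ≤ N := by exact_mod_cast hN
  have hNe : (1 : ℝ) ≤ (N : ℝ) ^ (ε / 2) := Real.one_le_rpow hN0 (by linarith)
  have hX : (0 : ℝ) ≤ ((N : ℝ) + S.card) * N := by positivity
  have h3 : P N S (max C 1 * (N : ℝ) ^ (ε / 2) * ((N : ℝ) + S.card) * N) := by
    refine hP N S _ _ ?_ (h1 N hN T hT S hS1 hS2)
    have h4 : C * (N : ℝ) ^ (ε / 2) ≤ max C 1 * (N : ℝ) ^ (ε / 2) :=
      mul_le_mul_of_nonneg_right (le_max_left _ _) (by linarith)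
    have := mul_le_mul_of_nonneg_right h4 hX
    linarith
  have h4 : ((N : ℝ) + S.card) * N ≤ max C 1 * (N : ℝ) ^ (ε / 2) * ((N : ℝ) + S.card) * N := by
    have h5 : (1 : ℝ) ≤ max C 1 * (N : ℝ) ^ (ε / 2) := by
      have h6 : (1 : ℝ) ≤ max C 1 := le_max_right _ _
      nlinarith
    have := mul_le_mul_of_nonneg_right h5 hX
    linarith
  refine hQ N S _ _ ?_ (h N S _ hN h4 h3)
  have h5 := h2 N hN
  have e : (N : ℝ) ^ ε = (N : ℝ) ^ (ε / 2) * (N : ℝ) ^ (ε / 2) := by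
    rw [← Real.rpow_add (by linarith)]
    congr 1
    ring
  have h6 : K * ((Nat.log 2 N : ℝ) + 1) ^ 2 * (max C 1 * (N : ℝ) ^ (ε / 2) * ((N : ℝ) + S.card) * N) =
      ((Nat.log 2 N : ℝ) + 1) ^ 2 * (K * max C 1 * (N : ℝ) ^ (ε / 2) * (((N : ℝ) + S.card) * N)) := by ring
  rw [h6, e]
  have h7 : 0 ≤ K * max C 1 * (N : ℝ) ^ (ε / 2) * (((N : ℝ) + S.card) * N) := by positivity
  refine (mul_le_mul_of_nonneg_right h5 h7).trans (le_of_eq ?_)
  ring

/-- no logarithm -/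
theorem scales_of' (P Q : ℕ → Finset ℝ → ℝ → Prop)
    (hP : ∀ N S (M M' : ℝ), M ≤ M' → P N S M → P N S M')
    (hQ : ∀ N S (M M' : ℝ), M ≤ M' → Q N S M → Q N S M') (K : ℝ) (hK : 0 < K)
    (h : ∀ (N : ℕ) (S : Finset ℝ) (M : ℝ), 1 ≤ N → 0 ≤ M → P N S M → Q N S (K * M)) :
    Scales P → Scales Q := by
  apply scales_of P Q hP hQ K hK
  intro N S M hN hM hPM
  have hM0 : 0 ≤ M := le_trans (by positivity) hM
  refine hQ N S _ _ ?_ (h N S M hN hM0 hPM)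
  have h1 : (1 : ℝ) ≤ ((Nat.log 2 N : ℝ) + 1) ^ 2 := by
    have : (0 : ℝ) ≤ Nat.log 2 N := Nat.cast_nonneg _
    nlinarith
  have h2 : 0 ≤ K * M := by positivity
  nlinarith

/-- **The equivalent forms.** -/
theorem forms : List.TFAE [Scales Bounded, Scales Vector, Scales Dual, Scales WeakDual,
    Scales Weighted, Scales Halving] := by
  have mB : ∀ N S (M M' : ℝ), M ≤ M' → Bounded N S M → Bounded N S M' := fun _ _ _ _ h => Bounded.mono h
  have mV : ∀ N S (M M' : ℝ), M ≤ M' → Vector N S M → Vector N S M' := fun _ _ _ _ h => Vector.mono h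
  have mD : ∀ N S (M M' : ℝ), M ≤ M' → Dual N S M → Dual N S M' := fun _ _ _ _ h => Dual.mono h
  have mW : ∀ N S (M M' : ℝ), M ≤ M' → WeakDual N S M → WeakDual N S M' :=
    fun _ _ _ _ h => WeakDual.mono h
  have mL : ∀ N S (M M' : ℝ), M ≤ M' → Weighted N S M → Weighted N S M' :=
    fun _ _ _ _ h => Weighted.mono h
  have mH : ∀ N S (M M' : ℝ), M ≤ M' → Halving N S M → Halving N S M' :=
    fun _ _ _ _ h => Halving.mono h
  tfae_have 1 → 3 := scales_of' _ _ mB mD 1 one_pos fun N S M _ _ h => by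
    rw [one_mul]; exact dual_of_bdd h
  tfae_have 3 → 4 := scales_of' _ _ mD mW 1 one_pos fun N S M _ _ h => by
    rw [one_mul]; exact weak_of_dual h
  tfae_have 4 → 3 := scales_of _ _ mW mD 9 (by norm_num) fun N S M hN hM h => dual_of_weakDual hN hM h
  tfae_have 3 → 1 := scales_of' _ _ mD mB 1 one_pos fun N S M _ hM h => by
    rw [one_mul]; exact bdd_of_dual hM h
  tfae_have 1 → 5 := scales_of' _ _ mB mL 96 (by norm_num) fun N S M hN _ h => weighted_of_bounded hN h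
  tfae_have 5 → 2 := scales_of' _ _ mL mV 1 one_pos fun N S M _ hM h => by
    rw [one_mul]; exact vector_of_weighted hM h
  tfae_have 2 → 1 := scales_of' _ _ mV mB 1 one_pos fun N S M _ _ h => by
    rw [one_mul]; exact bounded_of_vector h
  tfae_have 5 → 6 := scales_of' _ _ mL mH 2 (by norm_num) fun N S M _ hM h => halving_of_weighted hM h
  tfae_have 6 → 1 := scales_of _ _ mH mB 1 one_pos fun N S M _ hM h => by
    rw [one_mul]; exact bounded_of_halving (le_trans (by positivity) hM) h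
  tfae_finish

end Pool.Agent.J6H92.Fac
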