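import Mathlib

/-!
Short intervals: for every `n₀ ∈ [N/2, N - N^(1/3)]` there is a `1`-separated set of about `N` points of
`[0, N²]` at which the Dirichlet polynomials with nonnegative coefficients supported on
`[n₀, n₀ + N^(1/3)]` have no cancellation.
-/

set_option autoImplicit false

open Finset

namespace Pool.Agent.J6H92.Fac

/-- the oscillating factor -/
noncomputable def ex (t : ℝ) (n : ℕ) : ℂ := Complex.exp (Complex.I * (t : ℂ) * (Real.log (n : ℝ) : ℂ))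

lemma ex_norm (t : ℝ) (n : ℕ) : ‖ex t n‖ = 1 := by
  unfold ex
  rw [show Complex.I * (t : ℂ) * (Real.log (n : ℝ) : ℂ) = ((t * Real.log n : ℝ) : ℂ) * Complex.I by
    push_cast; ring]
  exact Complex.norm_exp_ofReal_mul_I _

lemma ex_add (t v : ℝ) (n : ℕ) : ex (t + v) n = ex v n * ex t n := by
  unfold ex
  rw [← Complex.exp_add]
  congr 1
  push_cast
  ring

/-- the phase at `n₀ + j` -/
lemma phase (c : ℝ) (hc : 8 ≤ c) (n₀ j k s : ℕ) (hn : c ^ 3 ≤ 2 * n₀) (hj : (j : ℝ) ≤ c)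
    (hk : (k : ℝ) ≤ c / 16) (hs : (s : ℝ) ≤ c ^ 2 / 8) :
    1 / 2 ≤ (ex (2 * Real.pi * n₀ * k + s) (n₀ + j) *
      (starRingEnd ℂ) (ex (2 * Real.pi * n₀ * k + s) n₀)).re := by
  have hc0 : 0 < c := by linarith
  have hn0 : (0 : ℝ) < n₀ := by
    have : 0 < c ^ 3 := by positivity
    linarith
  have hj0 : (0 : ℝ) ≤ j := Nat.cast_nonneg _
  have hk0 : (0 : ℝ) ≤ k := Nat.cast_nonneg _
  have hs0 : (0 : ℝ) ≤ s := Nat.cast_nonneg _
  obtain ⟨t, ht⟩ : ∃ t : ℝ, t = 2 * Real.pi * n₀ * k + s := ⟨_, rfl⟩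
  obtain ⟨x, hx⟩ : ∃ x : ℝ, x = j / n₀ := ⟨_, rfl⟩
  have hx0 : 0 ≤ x := by rw [hx]; positivity
  rw [← ht]
  have hπ := Real.pi_gt_three
  have hπ' := Real.pi_lt_d2
  have hlog : Real.log ((n₀ + j : ℕ) : ℝ) = Real.log n₀ + Real.log (1 + x) := by
    rw [← Real.log_mul hn0.ne' (by linarith)]
    congr 1
    push_cast
    rw [hx]
    field_simp
  -- the angle
  obtain ⟨θ, hθ⟩ : ∃ θ : ℝ, θ = t * Real.log (1 + x) - 2 * Real.pi * (k * j) := ⟨_, rfl⟩
  have hval : ex t (n₀ + j) * (starRingEnd ℂ) (ex t n₀) = Complex.exp (θ * Complex.I) := by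
    unfold ex
    rw [hlog, ← Complex.exp_conj, ← Complex.exp_add]
    rw [Complex.exp_eq_exp_iff_exists_int]
    refine ⟨(k : ℤ) * j, ?_⟩
    simp only [map_mul, Complex.conj_I, Complex.conj_ofReal]
    rw [hθ]
    push_cast
    ring
  rw [hval, Complex.exp_ofReal_mul_I_re]
  have h1 : Real.log (1 + x) ≤ x := by
    have := Real.log_le_sub_one_of_pos (show 0 < 1 + x by linarith)
    linarith
  have h2 : x - x ^ 2 / 2 ≤ Real.log (1 + x) := by
    have h3 := Real.le_log_one_add_of_nonneg hx0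
    refine le_trans ?_ h3
    rw [le_div_iff₀ (by linarith)]
    nlinarith [mul_nonneg hx0 (mul_nonneg hx0 hx0)]
  have ht0 : 0 ≤ t := by rw [ht]; positivity
  have htx : t * x - 2 * Real.pi * (k * j) = s * x := by
    rw [ht, hx]
    field_simp
    ring
  have hxb : x ≤ 2 / c ^ 2 := by
    rw [hx, div_le_div_iff₀ hn0 (by positivity)]
    have : (j : ℝ) * c ^ 2 ≤ c * c ^ 2 := mul_le_mul_of_nonneg_right hj (by positivity)
    nlinarith
  have hsx : s * x ≤ 1 / 4 := by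
    calc s * x ≤ c ^ 2 / 8 * (2 / c ^ 2) := mul_le_mul hs hxb hx0 (by positivity)
      _ = 1 / 4 := by field_simp; norm_num
  have hup : θ ≤ 1 / 4 := by
    have h4 : t * Real.log (1 + x) ≤ t * x := mul_le_mul_of_nonneg_left h1 ht0
    rw [hθ]
    linarith
  have htxx : t * x ^ 2 ≤ 9 / 10 := by
    have e : t * x ^ 2 = 2 * Real.pi * k * (j * x) + (s * x) * x := by
      rw [ht, hx]
      field_simp
    have h5 : (j : ℝ) * x ≤ c * (2 / c ^ 2) := mul_le_mul hj hxb hx0 hc0.le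
    have h6 : 2 * Real.pi * k * (j * x) ≤ 2 * Real.pi * (c / 16) * (c * (2 / c ^ 2)) := by
      apply mul_le_mul _ h5 (by positivity) (by positivity)
      exact mul_le_mul_of_nonneg_left hk (by positivity)
    have e6 : 2 * Real.pi * (c / 16) * (c * (2 / c ^ 2)) = Real.pi / 4 := by field_simp; norm_num
    have h7 : (s * x) * x ≤ 1 / 4 * (2 / c ^ 2) := mul_le_mul hsx hxb hx0 (by norm_num)
    have h8 : (2 : ℝ) / c ^ 2 ≤ 1 / 32 := by
      rw [div_le_iff₀ (by positivity)]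
      nlinarith
    rw [e]
    nlinarith
  have hlo : -(9 / 20) ≤ θ := by
    have h4 : t * (x - x ^ 2 / 2) ≤ t * Real.log (1 + x) := mul_le_mul_of_nonneg_left h2 ht0
    have h5 : 0 ≤ s * x := mul_nonneg hs0 hx0
    rw [hθ]
    nlinarith
  have hcos := Real.one_sub_sq_div_two_le_cos (x := θ)
  nlinarith

/-- the set of points -/
noncomputable def pts (n₀ K M : ℕ) : Finset ℝ :=
  (range K ×ˢ range M).image (fun q : ℕ × ℕ => 2 * Real.pi * n₀ * q.1 + q.2)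

lemma sep_pts (n₀ K M : ℕ) (hn : 1 ≤ n₀) (hM : M ≤ 2 * n₀) (q q' : ℕ × ℕ) (hq : q ∈ range K ×ˢ range M)
    (hq' : q' ∈ range K ×ˢ range M) (hne : q ≠ q') :
    1 ≤ |(2 * Real.pi * n₀ * q.1 + q.2) - (2 * Real.pi * n₀ * q'.1 + q'.2)| := by
  have hπ := Real.pi_gt_three
  have hn0 : (1 : ℝ) ≤ n₀ := by exact_mod_cast hn
  rw [mem_product, mem_range, mem_range] at hq hq'
  have hMr : (M : ℝ) ≤ 2 * n₀ := by exact_mod_cast hM
  have hs1 : (q.2 : ℝ) ≤ M := by exact_mod_cast hq.2.le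
  have hs2 : (q'.2 : ℝ) ≤ M := by exact_mod_cast hq'.2.le
  have hs3 : (0 : ℝ) ≤ q.2 := Nat.cast_nonneg _
  have hs4 : (0 : ℝ) ≤ q'.2 := Nat.cast_nonneg _
  rcases lt_trichotomy q.1 q'.1 with h | h | h
  · have h1 : (q.1 : ℝ) + 1 ≤ q'.1 := by exact_mod_cast h
    have h2 : 2 * Real.pi * n₀ * (q.1 + 1) ≤ 2 * Real.pi * n₀ * q'.1 :=
      mul_le_mul_of_nonneg_left h1 (by positivity)
    rw [abs_sub_comm]
    refine le_trans ?_ (le_abs_self _)
    nlinarith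
  · rw [h]
    have h2 : q.2 ≠ q'.2 := fun h3 => hne (Prod.ext h h3)
    have h3 : (1 : ℝ) ≤ |(q.2 : ℝ) - q'.2| := by
      have h4 : (1 : ℤ) ≤ |(q.2 : ℤ) - q'.2| := Int.one_le_abs (sub_ne_zero.2 (by exact_mod_cast h2))
      exact_mod_cast h4
    have e : (2 * Real.pi * n₀ * (q'.1 : ℝ) + q.2) - (2 * Real.pi * n₀ * q'.1 + q'.2) = (q.2 : ℝ) - q'.2 := by
      ring
    rw [e]
    exact h3
  · have h1 : (q'.1 : ℝ) + 1 ≤ q.1 := by exact_mod_cast h
    have h2 : 2 * Real.pi * n₀ * (q'.1 + 1) ≤ 2 * Real.pi * n₀ * q.1 :=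
      mul_le_mul_of_nonneg_left h1 (by positivity)
    refine le_trans ?_ (le_abs_self _)
    nlinarith

/-- **Short intervals.** -/
theorem short (N : ℕ) (c : ℝ) (hc : 64 ≤ c) (hcN : c ^ 3 = N) (n₀ : ℕ) (hn : N ≤ 2 * n₀) (hn1 : n₀ ≤ N) :
    ∃ S : Finset ℝ, (∀ t ∈ S, 0 ≤ t ∧ t ≤ (N : ℝ) ^ 2) ∧ (∀ t ∈ S, ∀ u ∈ S, t ≠ u → 1 ≤ |t - u|) ∧
      (N : ℝ) / 512 ≤ S.card ∧ S.card ≤ N ∧
      ∀ F : Finset ℕ, ∀ w : ℕ → ℝ, (∀ n, 0 ≤ w n) → (∀ n ∈ F, w n ≠ 0 → n₀ ≤ n ∧ (n : ℝ) ≤ n₀ + c) →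
        ∀ t ∈ S, 1 / 2 * ∑ n ∈ F, w n ≤ ‖∑ n ∈ F, (w n : ℂ) * ex t n‖ := by
  have hc0 : 0 < c := by linarith
  have hNr : (N : ℝ) = c ^ 3 := hcN.symm
  obtain ⟨K, hK⟩ : ∃ K : ℕ, K = ⌊c / 16⌋₊ := ⟨_, rfl⟩
  obtain ⟨M, hM⟩ : ∃ M : ℕ, M = ⌊c ^ 2 / 8⌋₊ := ⟨_, rfl⟩
  have hK1 : (K : ℝ) ≤ c / 16 := by rw [hK]; exact Nat.floor_le (by positivity)
  have hK2 : c / 32 ≤ K := by
    have := Nat.lt_floor_add_one (c / 16)
    rw [← hK] at this
    linarith
  have hM1 : (M : ℝ) ≤ c ^ 2 / 8 := by rw [hM]; exact Nat.floor_le (by positivity)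
  have hM2 : c ^ 2 / 16 ≤ M := by
    have := Nat.lt_floor_add_one (c ^ 2 / 8)
    rw [← hM] at this
    nlinarith
  have hn0 : (c ^ 3 : ℝ) ≤ 2 * n₀ := by rw [← hNr]; exact_mod_cast hn
  have hn1' : (n₀ : ℝ) ≤ c ^ 3 := by rw [← hNr]; exact_mod_cast hn1
  have hn3 : 1 ≤ n₀ := by
    have h1 : (0 : ℝ) < n₀ := by
      have : 0 < c ^ 3 := by positivity
      linarith
    exact_mod_cast h1
  have hMn : M ≤ 2 * n₀ := by
    have h1 : (M : ℝ) ≤ 2 * n₀ := by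
      have : c ^ 2 / 8 ≤ c ^ 3 := by nlinarith [sq_nonneg c]
      linarith
    exact_mod_cast h1
  have hinj : Set.InjOn (fun q : ℕ × ℕ => 2 * Real.pi * n₀ * (q.1 : ℝ) + q.2) (range K ×ˢ range M : Finset (ℕ × ℕ)) := by
    intro q hq q' hq' he
    by_contra hne
    have h1 := sep_pts n₀ K M hn3 hMn q q' hq hq' hne
    simp only at he
    rw [he, sub_self, abs_zero] at h1
    linarith
  have hcard : (pts n₀ K M).card = K * M := by
    unfold pts
    rw [card_image_of_injOn hinj, card_product, card_range, card_range]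
  have hπ := Real.pi_gt_three
  have hπ' := Real.pi_lt_d2
  refine ⟨pts n₀ K M, ?_, ?_, ?_, ?_, ?_⟩
  · intro t ht
    unfold pts at ht
    obtain ⟨q, hq, rfl⟩ := mem_image.1 ht
    rw [mem_product, mem_range, mem_range] at hq
    refine ⟨by positivity, ?_⟩
    have h1 : (q.1 : ℝ) ≤ K := by exact_mod_cast hq.1.le
    have h2 : (q.2 : ℝ) ≤ M := by exact_mod_cast hq.2.le
    have h3 : 2 * Real.pi * n₀ * q.1 ≤ 2 * 3.15 * c ^ 3 * (c / 16) := by
      have h4 : 2 * Real.pi * n₀ ≤ 2 * 3.15 * c ^ 3 := by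
        have : (0 : ℝ) ≤ n₀ := Nat.cast_nonneg _
        nlinarith
      exact mul_le_mul h4 (h1.trans hK1) (Nat.cast_nonneg _) (by positivity)
    rw [hNr]
    have h5 : c ^ 2 / 8 ≤ c ^ 4 / 8 := by nlinarith [sq_nonneg c, pow_pos hc0 2]
    have h6 : c ^ 4 ≤ (c ^ 3) ^ 2 := by
      have : c ^ 4 * 1 ≤ c ^ 4 * c ^ 2 := mul_le_mul_of_nonneg_left (by nlinarith) (by positivity)
      nlinarith
    nlinarith
  · intro t ht u hu htu
    unfold pts at ht hu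
    obtain ⟨q, hq, rfl⟩ := mem_image.1 ht
    obtain ⟨q', hq', rfl⟩ := mem_image.1 hu
    exact sep_pts n₀ K M hn3 hMn q q' hq hq' (fun h => htu (by rw [h]))
  · rw [hcard, hNr]
    push_cast
    have h1 : c / 32 * (c ^ 2 / 16) ≤ K * M := mul_le_mul hK2 hM2 (by positivity) (Nat.cast_nonneg _)
    nlinarith
  · rw [hcard]
    have h1 : ((K * M : ℕ) : ℝ) ≤ N := by
      push_cast
      rw [hNr]
      have h2 : (K : ℝ) * M ≤ c / 16 * (c ^ 2 / 8) := mul_le_mul hK1 hM1 (Nat.cast_nonneg _) (by positivity)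
      nlinarith [pow_pos hc0 3]
    exact_mod_cast h1
  · intro F w hw hsupp t ht
    unfold pts at ht
    obtain ⟨q, hq, rfl⟩ := mem_image.1 ht
    rw [mem_product, mem_range, mem_range] at hq
    have hk : (q.1 : ℝ) ≤ c / 16 := le_trans (by exact_mod_cast hq.1.le) hK1
    have hs : (q.2 : ℝ) ≤ c ^ 2 / 8 := le_trans (by exact_mod_cast hq.2.le) hM1
    set t := 2 * Real.pi * n₀ * (q.1 : ℝ) + q.2 with ht'
    have h1 : 1 / 2 * ∑ n ∈ F, w n ≤ ((∑ n ∈ F, (w n : ℂ) * ex t n) * (starRingEnd ℂ) (ex t n₀)).re := by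
      rw [sum_mul, Complex.re_sum, mul_sum]
      refine sum_le_sum fun n hn => ?_
      rw [mul_assoc, Complex.re_ofReal_mul, mul_comm]
      by_cases h0 : w n = 0
      · rw [h0, zero_mul, zero_mul]
      · obtain ⟨h2, h3⟩ := hsupp n hn h0
        obtain ⟨j, rfl⟩ := Nat.exists_eq_add_of_le h2
        apply mul_le_mul_of_nonneg_left _ (hw _)
        rw [ht']
        apply phase c (by linarith) n₀ j q.1 q.2 hn0 _ hk hs
        push_cast at h3
        linarith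
    refine h1.trans ((Complex.re_le_norm _).trans (le_of_eq ?_))
    rw [norm_mul, RCLike.norm_conj, ex_norm, mul_one]

end Pool.Agent.J6H92.Fac
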